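import Pool.Agent.H18.XX.TB
import Pool.Agent.H16.IP.SPF

/-!
Row EXZ of the board exh_modules: the exact algorithm outputs the answer of a good instance.
-/

set_option autoImplicit false

namespace Pool.Agent.H61.XX

open Finset Pool.Agent.H6.NB Pool.Agent.H70.OQ Pool.Agent.H70.EH Pool.Agent.H70.EI Pool.Agent.H78.XQ
open Pool.Agent.H66.IP (Local ins sp dm IsZ scl mBp m0p)
open Pool.Agent.H66.IQ Pool.Agent.H66.AV Pool.Agent.H18.XX

open Classical in
/-- EXZ -/
theorem pf_EXZ (hEXA : Pool.Agent.H78.XQ.T_EXA) : T_EXZ := by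
  intro V i x O hg
  unfold GoodZ OkB at hg
  have he := hEXA O (sp (lx V) (i, x)) _ hg.2
  rw [Pool.Agent.H16.IP.sp_eq (lx V) (i, x)] at he
  change (exact (ins (V i).c i x)).prob O = _ at he
  constructor
  · intro hx
    have h1 : ax V O (i, x) = true := by
      unfold ax
      exact decide_eq_true hx
    rw [he, h1]
    simp
  · intro hx
    have h1 : ax V O (i, x) = false := by
      unfold ax
      exact decide_eq_false hx
    rw [he, h1]
    simp

end Pool.Agent.H61.XX
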